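import Pool.Agent.Helper48_LSP.CLB2

/-!
# CLB: from the Green function to the cluster lemma
-/

set_option autoImplicit false

open MeasureTheory ProbabilityTheory Function Filter

open scoped ENNReal BigOperators Topology NNReal

noncomputable section

namespace Pool.Agent.LE.CL.H48

open Pool.Agent.Anderson hiding box mem_box card_box
open Pool.Agent.Loc Pool.Agent.Mob Pool.Agent.Helper54.Bal
  Pool.Agent.Helper96.EXP Pool.Agent.BED
open Pool.Agent.LE.MN

variable {d : ℕ}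

/-- the growing clusters -/
def Sq (V : Site d → ℝ) (Λ : Finset (Site d)) (E s : ℝ) (b : Site d) (R₁ : ℕ) :
    ℕ → Finset (Site d)
  | 0 => {b}
  | j + 1 => clu V Λ E s (Sq V Λ E s b R₁ j) (box b (j * R₁ + R₁))

variable {V : Site d → ℝ} {Λ : Finset (Site d)} {E s : ℝ} {b : Site d} {R₁ R J : ℕ}

theorem Sq_box (j : ℕ) : Sq V Λ E s b R₁ j ⊆ box b (j * R₁) := by
  induction j with
  | zero =>
    intro y hy
    rw [Sq, Finset.mem_singleton] at hy
    rw [hy, mem_box, sd_self]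
    exact Nat.zero_le _
  | succ j ih =>
    intro y hy
    rw [Sq, mem_clu] at hy
    rw [Nat.succ_mul]
    rcases hy with hy | hy
    · exact box_mono b (Nat.le_add_right _ _) (ih hy)
    · exact hy.1

theorem Sq_self (j : ℕ) : b ∈ Sq V Λ E s b R₁ j := by
  induction j with
  | zero => rw [Sq, Finset.mem_singleton]
  | succ j ih =>
    rw [Sq, mem_clu]
    exact Or.inl ih

theorem Sq_rch (j : ℕ) (h : j * R₁ ≤ R) : Sq V Λ E s b R₁ j ⊆ rch V Λ E s b R j := by
  induction j with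
  | zero =>
    intro y hy
    rw [Sq] at hy
    rw [rch_zero]
    exact hy
  | succ j ih =>
    rw [Nat.succ_mul] at h
    rw [Sq, rch_succ]
    exact clu_mono (ih (by omega)) (box_mono b h)

theorem pigeon (hJ : (2 * R + 1) ^ d < 2 ^ J) (hR : J * R₁ ≤ R) :
    ∃ j < J, (Sq V Λ E s b R₁ (j + 1)).card ≤ 2 * (Sq V Λ E s b R₁ j).card := by
  by_contra hcon
  push Not at hcon
  have h1 : ∀ j ≤ J, 2 ^ j ≤ (Sq V Λ E s b R₁ j).card := by
    intro j
    induction j with
    | zero =>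
      intro _
      rw [Sq, Finset.card_singleton, pow_zero]
    | succ j ih =>
      intro hj
      have h2 := hcon j (by omega)
      have h3 := ih (by omega)
      rw [pow_succ]
      omega
  have h2 := h1 J le_rfl
  have h3 : (Sq V Λ E s b R₁ J).card ≤ (box b R).card :=
    Finset.card_le_card fun y hy => box_mono b hR (Sq_box J hy)
  rw [card_box] at h3
  omega

theorem rpow_neg_nat {η : ℝ} (hη : 0 < η) (d : ℕ) : η ^ (-(d : ℝ)) = (η ^ d)⁻¹ := by
  rw [Real.rpow_neg hη.le, Real.rpow_natCast]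

/-- the numbers -/
theorem num_eps {d R n : ℕ} {c η κ s a : ℝ} (hd : 1 ≤ d) (hR : 1 ≤ R) (hn : n ≤ R + 1)
    (hη : 0 < η) (hη1 : η ≤ 1) (hηc : 4 * 5 ^ d * (4 * d + 1) ^ 2 * η ≤ c)
    {m : ℕ} (hs : d * (Real.log (1 / η) + Real.log R) ≤ s)
    (hκ : a + d * (Real.log (1 / η) + Real.log R) ≤ κ * m) :
    (2 * (n : ℝ) + 1) ^ d * ((4 * d + 1) * (Real.exp (-s) + Real.exp (a - κ * m))) ^ 2 ≤
      c * η := by
  have hR1 : (1 : ℝ) ≤ R := by exact_mod_cast hR
  have hR0 : (0 : ℝ) < R := by linarith only [hR1]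
  have hM : Real.exp (-(d * (Real.log (1 / η) + Real.log R))) = (η / R) ^ d := by
    have h1 : -(d * (Real.log (1 / η) + Real.log R)) = (d : ℝ) * Real.log (η / R) := by
      rw [Real.log_div hη.ne' hR0.ne', one_div, Real.log_inv]
      ring
    rw [h1, ← Real.log_pow, Real.exp_log (by positivity)]
  obtain ⟨M, hMd⟩ : ∃ M, M = (η / R) ^ d := ⟨_, rfl⟩
  rw [← hMd] at hM
  have hM0 : 0 < M := by rw [hMd]; positivity
  have h1 : Real.exp (-s) ≤ M := by
    rw [← hM]
    exact Real.exp_le_exp.2 (by linarith only [hs])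
  have h2 : Real.exp (a - κ * m) ≤ M := by
    rw [← hM]
    exact Real.exp_le_exp.2 (by linarith only [hκ])
  have h3 : (4 * d + 1) * (Real.exp (-s) + Real.exp (a - κ * m)) ≤ (4 * d + 1) * (2 * M) :=
    mul_le_mul_of_nonneg_left (by linarith only [h2, h1]) (by positivity)
  have h4 : (2 * (n : ℝ) + 1) ^ d ≤ (5 * R : ℝ) ^ d := by
    have h5 : (n : ℝ) ≤ R + 1 := by exact_mod_cast hn
    exact pow_le_pow_left₀ (by positivity) (by linarith only [h5, hR1]) d
  have h5 : ((4 * d + 1) * (Real.exp (-s) + Real.exp (a - κ * m))) ^ 2 ≤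
      ((4 * d + 1) * (2 * M)) ^ 2 := pow_le_pow_left₀ (by positivity) h3 2
  have h6 : (R : ℝ) ^ d * M = η ^ d := by
    rw [hMd, div_pow]
    field_simp
  have h7 : M ≤ η ^ d := by
    rw [hMd]
    refine pow_le_pow_left₀ (by positivity) ?_ d
    rw [div_le_iff₀ hR0]
    nlinarith only [hR1, hη]
  have h8 : η ^ d ≤ η := by
    calc η ^ d ≤ η ^ 1 := pow_le_pow_of_le_one hη.le hη1 hd
      _ = η := pow_one η
  calc (2 * (n : ℝ) + 1) ^ d * ((4 * d + 1) * (Real.exp (-s) + Real.exp (a - κ * m))) ^ 2 ≤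
      (5 * R : ℝ) ^ d * ((4 * d + 1) * (2 * M)) ^ 2 := mul_le_mul h4 h5 (by positivity)
        (by positivity)
    _ = 4 * 5 ^ d * (4 * d + 1) ^ 2 * (((R : ℝ) ^ d * M) * M) := by
        rw [mul_pow]
        ring
    _ = 4 * 5 ^ d * (4 * d + 1) ^ 2 * (η ^ d * M) := by rw [h6]
    _ ≤ 4 * 5 ^ d * (4 * d + 1) ^ 2 * (η * η) := by
        refine mul_le_mul_of_nonneg_left ?_ (by positivity)
        exact mul_le_mul h8 (le_trans h7 h8) hM0.le hη.le
    _ = (4 * 5 ^ d * (4 * d + 1) ^ 2 * η) * η := by ring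
    _ ≤ c * η := mul_le_mul_of_nonneg_right hηc hη.le

theorem clb (blk : BlkStmt) : ClbStmt := by
  intro d cT CT hd hcT hCT
  obtain ⟨c, c₂, hc, hc1, hc₂, hblk⟩ := blk d cT CT hd hcT hCT
  have hd3 : (3 : ℝ) ≤ d := by exact_mod_cast hd
  have hd0 : (0 : ℝ) < d := by linarith only [hd3]
  obtain ⟨η₁, hη₁⟩ : ∃ η₁ : ℝ, η₁ = c / (4 * 5 ^ d * (4 * d + 1) ^ 2) := ⟨_, rfl⟩
  have hη₁0 : 0 < η₁ := by rw [hη₁]; positivity
  have hbig : (1 : ℝ) < 4 * 5 ^ d * (4 * d + 1) ^ 2 := by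
    have h1 : (1 : ℝ) ≤ 5 ^ d := one_le_pow₀ (by norm_num)
    have h2 : (1 : ℝ) ≤ (4 * d + 1) ^ 2 := one_le_pow₀ (by linarith only [])
    nlinarith only [h1, hd3]
  have hη₁1 : η₁ < 1 := by
    rw [hη₁, div_lt_one (by positivity)]
    linarith only [hbig, hc1]
  refine ⟨c, min c₂ (η₁ ^ d), 4 * d ^ 2 / c, hc, hc1, lt_min hc₂ (by positivity), ?_, ?_⟩
  · rw [le_div_iff₀ hc]
    nlinarith only [hd3, hc1]
  intro V N R R₁ J E η τ s a T b q hη hηc hE ha hτ hτl hT1 hT2 hq hbox hJR hJ hR₁ hs hdet hV hG hKF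
  obtain ⟨Λ, hΛ⟩ : ∃ Λ : Finset (Site d), Λ = box 0 N := ⟨_, rfl⟩
  rw [← hΛ] at hbox hdet hG ⊢
  have hηd : 0 < η ^ d := by positivity
  rw [rpow_neg_nat hη]
  rcases le_or_gt η₁ η with hcase | hcase
  · -- trivial
    have h1 : 1 ≤ (rch V Λ E s b R J).card := Finset.card_pos.2 ⟨b, mem_rch_self J⟩
    have h2 : min c₂ (η₁ ^ d) * (η ^ d)⁻¹ ≤ 1 := by
      rw [← div_eq_mul_inv, div_le_one hηd]
      exact le_trans (min_le_right _ _) (pow_le_pow_left₀ hη₁0.le hcase d)
    refine le_trans h2 ?_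
    exact_mod_cast h1
  have hη1 : η < 1 := by linarith only [hcase, hη₁1]
  have hl : 0 < Real.log (1 / η) := Real.log_pos (by rw [lt_div_iff₀ hη]; linarith only [hcase, hη₁1])
  have hlR : 0 ≤ Real.log R := Real.log_natCast_nonneg R
  have hR₁0 : 0 < R₁ := by
    by_contra hcon
    have h0 : R₁ = 0 := by omega
    rw [h0, Nat.cast_zero, mul_zero] at hR₁
    have h1 : 0 < 4 * (d : ℝ) ^ 2 / c * (a + Real.log (1 / η) + Real.log R) := by positivity
    linarith only [h1, hR₁]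
  have hJ0 : 0 < J := by
    by_contra hcon
    have h0 : J = 0 := by omega
    rw [h0, pow_zero] at hJ
    have : 0 < (2 * R + 1) ^ d := by positivity
    omega
  have hRR : 1 ≤ R := by
    have h1 : 1 * 1 ≤ J * R₁ := Nat.mul_le_mul hJ0 hR₁0
    omega
  obtain ⟨j, hj, hcard⟩ := pigeon (V := V) (Λ := Λ) (E := E) (s := s) (b := b) hJ hJR
  have hjR : j * R₁ + R₁ ≤ R := by
    have h1 : (j + 1) * R₁ ≤ J * R₁ := Nat.mul_le_mul_right _ (by omega)
    rw [Nat.succ_mul] at h1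
    omega
  obtain ⟨κ, hκ⟩ : ∃ κ : ℝ, κ = c * η / (4 * d) := ⟨_, rfl⟩
  have hκ0 : 0 ≤ κ := by rw [hκ]; positivity
  have hω : 4 * d * κ = c * η := by
    rw [hκ]
    field_simp
  have hκ1 : κ ≤ 1 := by
    rw [hκ, div_le_one (by positivity)]
    nlinarith only [hηc, hd3, hc1, hc]
  have hcη : c * η ≤ 1 := by nlinarith only [hηc, hc1, hc]
  have hε := num_eps (d := d) (R := R) (n := j * R₁ + R₁ + 1) (c := c) (η := η) (κ := κ) (s := s)
    (a := a) (by omega) hRR (by omega) hη hη1.le (by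
      have h1 : η * (4 * 5 ^ d * (4 * d + 1) ^ 2) ≤ c := by
        rw [hη₁] at hcase
        rw [lt_div_iff₀ (by positivity)] at hcase
        exact hcase.le
      linarith only [h1]) (m := R₁) (by
      refine le_trans ?_ hs
      have h1 : (d : ℝ) ≤ 4 * d ^ 2 / c := by
        rw [le_div_iff₀ hc]
        nlinarith only [hd3, hc1]
      calc (d : ℝ) * (Real.log (1 / η) + Real.log R) ≤
          4 * d ^ 2 / c * (Real.log (1 / η) + Real.log R) :=
            mul_le_mul_of_nonneg_right h1 (by linarith only [hlR, hl])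
        _ ≤ 4 * d ^ 2 / c * (1 + Real.log (1 / η) + Real.log R) :=
            mul_le_mul_of_nonneg_left (by linarith only []) (by positivity)) (by
      have h1 : (c / (4 * d)) * (4 * d ^ 2 / c * (a + Real.log (1 / η) + Real.log R)) ≤
          (c / (4 * d)) * (η * R₁) := mul_le_mul_of_nonneg_left hR₁ (by positivity)
      have h2 : (c / (4 * d)) * (4 * d ^ 2 / c * (a + Real.log (1 / η) + Real.log R)) =
          d * (a + Real.log (1 / η) + Real.log R) := by
        field_simp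
      have h3 : (c / (4 * d)) * (η * R₁) = κ * R₁ := by
        rw [hκ]
        ring
      rw [h2, h3] at h1
      have h4 : a ≤ d * a := by nlinarith only [ha, hd3]
      linarith only [h4, h1])
  have hsys := sys_of (V := V) (Λ := Λ) (E := E) (κ := κ) (b := b) (r₀ := j * R₁) (m := R₁)
    (C := Sq V Λ E s b R₁ j) (C' := Sq V Λ E s b R₁ (j + 1)) (s := s) (a := a) (η := η)
    (ε := c * η) (τ := τ) hκ0 hκ1 hdet (fun y hy => hbox (box_mono b (by omega) hy)) (Sq_box j)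
    hR₁0 rfl (fun x hx => hV x (box_mono b (by omega) hx)) hE
    (fun x hx y hy => hG x (box_mono b (by omega) hx) y (box_mono b (by omega) hy)) hε
    (KF_mono (box_mono b hjR) hKF)
  rw [hω] at hsys
  have hfin := hblk _ _ _ _ _ _ _ _ _ _ _ _ _ _ hη hηc (by positivity) le_rfl le_rfl hτ hτl hT1
    hT2 ⟨b, Sq_self j⟩ hcard hsys hq
  rw [rpow_neg_nat hη] at hfin
  have h1 : (Sq V Λ E s b R₁ (j + 1)).card ≤ (rch V Λ E s b R J).card := by
    refine Finset.card_le_card ?_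
    intro y hy
    refine rch_mono (by omega : j + 1 ≤ J) (Sq_rch (j + 1) ?_ hy)
    rw [Nat.succ_mul]
    exact hjR
  calc min c₂ (η₁ ^ d) * (η ^ d)⁻¹ ≤ c₂ * (η ^ d)⁻¹ :=
        mul_le_mul_of_nonneg_right (min_le_left _ _) (by positivity)
    _ ≤ (Sq V Λ E s b R₁ (j + 1)).card := hfin
    _ ≤ (rch V Λ E s b R J).card := by exact_mod_cast h1

end Pool.Agent.LE.CL.H48
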