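import Pool.Agent.LE.StmtsP
import Pool.Agent.Helper73_BED.Edge

/-!
# CLB, part 1: the weighted Green function
-/

set_option autoImplicit false

open MeasureTheory ProbabilityTheory Function Filter

open scoped ENNReal BigOperators Topology NNReal

noncomputable section

namespace Pool.Agent.LE.CL.H48

open Pool.Agent.Anderson hiding box mem_box card_box
open Pool.Agent.Loc Pool.Agent.Mob Pool.Agent.Helper54.Bal
  Pool.Agent.Helper96.EXP Pool.Agent.BED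
open Pool.Agent.LE.MN

variable {d : ℕ}

/-- the equation of the Green function -/
theorem green_gen {V : Site d → ℝ} {Λ : Finset (Site d)} {E : ℝ} (hdet : (RM V Λ E).det ≠ 0)
    {x y : Site d} (hx : x ∈ Λ) (hy : y ∈ Λ) :
    nb (gr V Λ E x) y + (V y - E) * gr V Λ E x y = -(if y = x then 1 else 0) := by
  classical
  have hout : ∀ z, z ∉ Λ → gr V Λ E x z = 0 := by
    intro z hz
    unfold gr
    rw [dif_neg fun hh => hz hh.2]
  have h1 := rm_mul_gr hdet hy hx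
  unfold nb
  rw [H73.sum_nb Λ (fun z => gr V Λ E x z) hout y, ← h1]
  have h2 : ∀ z ∈ Λ, rm V E y z * gr V Λ E z x =
      (if y = z then (E - V y) * gr V Λ E x z else 0) - hop y z * gr V Λ E x z := by
    intro z _
    rw [gr_symm V Λ E z x, rm, sub_mul]
    congr 1
    split_ifs <;> ring
  rw [Finset.sum_congr rfl h2, Finset.sum_sub_distrib, Finset.sum_ite_eq, if_pos hy]
  ring

/-! ### the weight -/

/-- the weight -/
def wt (κ : ℝ) (b : Site d) (r₀ : ℕ) (y : Site d) : ℝ :=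
  Real.exp (-(κ * ((sd b y - r₀ : ℕ) : ℝ)))

theorem wt_pos (κ : ℝ) (b : Site d) (r₀ : ℕ) (y : Site d) : 0 < wt κ b r₀ y := Real.exp_pos _

theorem wt_le_one {κ : ℝ} (hκ : 0 ≤ κ) (b : Site d) (r₀ : ℕ) (y : Site d) :
    wt κ b r₀ y ≤ 1 := by
  unfold wt
  rw [Real.exp_le_one_iff]
  have : 0 ≤ κ * ((sd b y - r₀ : ℕ) : ℝ) := by positivity
  linarith

theorem wt_eq_one {κ : ℝ} {b : Site d} {r₀ : ℕ} {y : Site d} (h : sd b y ≤ r₀) :
    wt κ b r₀ y = 1 := by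
  unfold wt
  rw [Nat.sub_eq_zero_of_le h, Nat.cast_zero, mul_zero, neg_zero, Real.exp_zero]

theorem wt_le {κ : ℝ} (hκ : 0 ≤ κ) {b : Site d} {r₀ m : ℕ} {y : Site d} (h : r₀ + m ≤ sd b y) :
    wt κ b r₀ y ≤ Real.exp (-(κ * m)) := by
  unfold wt
  apply Real.exp_le_exp.2
  have h1 : (m : ℝ) ≤ ((sd b y - r₀ : ℕ) : ℝ) := by
    exact_mod_cast (by omega : m ≤ sd b y - r₀)
  have h2 := mul_le_mul_of_nonneg_left h1 hκ
  linarith

theorem wt_ratio {κ : ℝ} (hκ : 0 ≤ κ) (hκ1 : κ ≤ 1) {b : Site d} {r₀ : ℕ} {y z : Site d}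
    (h : sd y z ≤ 1) : |wt κ b r₀ y / wt κ b r₀ z - 1| ≤ 2 * κ := by
  unfold wt
  rw [← Real.exp_sub]
  obtain ⟨m, hm⟩ : ∃ m : ℕ, m = sd b y - r₀ := ⟨_, rfl⟩
  obtain ⟨n, hn⟩ : ∃ n : ℕ, n = sd b z - r₀ := ⟨_, rfl⟩
  rw [← hm, ← hn]
  have h1 : m ≤ n + 1 := by
    have := sd_triangle b z y
    rw [sd_comm z y] at this
    omega
  have h2 : n ≤ m + 1 := by
    have := sd_triangle b y z
    omega
  have h1' : (m : ℝ) ≤ n + 1 := by exact_mod_cast h1
  have h2' : (n : ℝ) ≤ m + 1 := by exact_mod_cast h2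
  have h3 : -(κ * m) - -(κ * n) = κ * ((n : ℝ) - m) := by ring
  rw [h3]
  have h4 : |(n : ℝ) - m| ≤ 1 := by
    rw [abs_le]
    constructor <;> linarith
  have h5 : |κ * ((n : ℝ) - m)| ≤ κ := by
    rw [abs_mul, abs_of_nonneg hκ]
    exact mul_le_of_le_one_right hκ h4
  refine le_trans (Real.abs_exp_sub_one_le (le_trans h5 hκ1)) ?_
  linarith

/-! ### sums over neighbours -/

theorem nb_abs_le {u : Site d → ℝ} {y : Site d} {M : ℝ}
    (h : ∀ i, |u (y + Pi.single i 1)| ≤ M ∧ |u (y - Pi.single i 1)| ≤ M) :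
    |nb u y| ≤ 2 * d * M := by
  unfold nb
  refine le_trans (Finset.abs_sum_le_sum_abs _ _) ?_
  have h1 : ∀ i ∈ (Finset.univ : Finset (Fin d)),
      |u (y + Pi.single i 1) + u (y - Pi.single i 1)| ≤ 2 * M := by
    intro i _
    refine le_trans (abs_add_le _ _) ?_
    linarith [(h i).1, (h i).2]
  refine le_trans (Finset.sum_le_sum h1) ?_
  rw [Finset.sum_const, Finset.card_univ, Fintype.card_fin, nsmul_eq_mul]
  linarith

theorem sum_shift_le (G : Site d → ℝ) (hG : ∀ y, 0 ≤ G y) {C : Finset (Site d)}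
    (hC : ∀ y, y ∉ C → G y = 0) (B : Finset (Site d)) (w : Site d) :
    ∑ y ∈ B, G (y + w) ≤ ∑ z ∈ C, G z := by
  classical
  have e1 : ∑ y ∈ B, G (y + w) = ∑ z ∈ B.map (addRightEmbedding w), G z := by
    rw [Finset.sum_map]
    rfl
  rw [e1, ← Finset.sum_filter_of_ne (s := B.map (addRightEmbedding w)) (p := fun z => z ∈ C)]
  · refine Finset.sum_le_sum_of_subset_of_nonneg ?_ fun _ _ _ => hG _
    intro z hz
    exact (Finset.mem_filter.1 hz).2
  · intro z _ hz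
    by_contra hcon
    exact hz (hC z hcon)

/-- the norm of a weighted sum over the neighbours -/
theorem lap_norm_sq_le {κ : ℝ} (hκ : 0 ≤ κ) {C : Finset (Site d)} (B : Finset (Site d))
    (g : Site d → ℂ) (hg : ∀ y, y ∉ C → g y = 0) (ρ : Site d → Site d → ℂ)
    (hρ : ∀ y i, ‖ρ y (y + Pi.single i 1)‖ ≤ 2 * κ ∧ ‖ρ y (y - Pi.single i 1)‖ ≤ 2 * κ) :
    ∑ y ∈ B, ‖lap (fun z => ρ y z * g z) y‖ ^ 2 ≤ (4 * d * κ) ^ 2 * ∑ z ∈ C, ‖g z‖ ^ 2 := by
  have h1 : ∀ y, ‖lap (fun z => ρ y z * g z) y‖ ^ 2 ≤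
      8 * d * κ ^ 2 * ∑ i : Fin d, (‖g (y + Pi.single i 1)‖ ^ 2 + ‖g (y - Pi.single i 1)‖ ^ 2) := by
    intro y
    have a1 : ‖lap (fun z => ρ y z * g z) y‖ ≤
        ∑ i : Fin d, 2 * κ * (‖g (y + Pi.single i 1)‖ + ‖g (y - Pi.single i 1)‖) := by
      unfold lap
      refine le_trans (norm_sum_le _ _) (Finset.sum_le_sum fun i _ => ?_)
      refine le_trans (norm_add_le _ _) ?_
      rw [norm_mul, norm_mul, mul_add]
      exact add_le_add (mul_le_mul_of_nonneg_right (hρ y i).1 (norm_nonneg _))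
        (mul_le_mul_of_nonneg_right (hρ y i).2 (norm_nonneg _))
    have a2 : ‖lap (fun z => ρ y z * g z) y‖ ^ 2 ≤
        (∑ i : Fin d, 2 * κ * (‖g (y + Pi.single i 1)‖ + ‖g (y - Pi.single i 1)‖)) ^ 2 :=
      pow_le_pow_left₀ (norm_nonneg _) a1 2
    refine le_trans a2 ?_
    refine le_trans (sq_sum_le_card_mul_sum_sq) ?_
    rw [Finset.card_univ, Fintype.card_fin, mul_assoc (8 * (d : ℝ)), mul_comm (8 : ℝ) (d : ℝ), mul_assoc (d : ℝ)]
    refine mul_le_mul_of_nonneg_left ?_ (Nat.cast_nonneg _)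
    rw [Finset.mul_sum, Finset.mul_sum]
    refine Finset.sum_le_sum fun i _ => ?_
    have h2 := sq_nonneg (‖g (y + Pi.single i 1)‖ - ‖g (y - Pi.single i 1)‖)
    have h3 : 0 ≤ κ ^ 2 * (‖g (y + Pi.single i 1)‖ - ‖g (y - Pi.single i 1)‖) ^ 2 := by positivity
    nlinarith
  refine le_trans (Finset.sum_le_sum fun y _ => h1 y) ?_
  rw [← Finset.mul_sum, Finset.sum_comm]
  have h2 : ∑ i : Fin d, ∑ y ∈ B, (‖g (y + Pi.single i 1)‖ ^ 2 + ‖g (y - Pi.single i 1)‖ ^ 2) ≤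
      ∑ i : Fin d, 2 * ∑ z ∈ C, ‖g z‖ ^ 2 := by
    refine Finset.sum_le_sum fun i _ => ?_
    rw [Finset.sum_add_distrib, two_mul]
    have hz : ∀ y, y ∉ C → ‖g y‖ ^ 2 = 0 := by
      intro y hy
      rw [hg y hy, norm_zero]
      norm_num
    refine add_le_add (sum_shift_le (fun z => ‖g z‖ ^ 2) (fun _ => by positivity) hz B _) ?_
    have := sum_shift_le (fun z => ‖g z‖ ^ 2) (fun _ => by positivity) hz B (-Pi.single i 1)
    simpa only [sub_eq_add_neg] using this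
  refine le_trans (mul_le_mul_of_nonneg_left h2 (by positivity)) ?_
  rw [Finset.sum_const, Finset.card_univ, Fintype.card_fin, nsmul_eq_mul]
  refine le_of_eq ?_
  ring

end Pool.Agent.LE.CL.H48
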