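import Pool.Agent.Helper48_LSP.CLB1

/-!
# CLB, part 2: the system of equations
-/

set_option autoImplicit false

open MeasureTheory ProbabilityTheory Function Filter

open scoped ENNReal BigOperators Topology NNReal

noncomputable section

namespace Pool.Agent.LE.CL.H48

open Pool.Agent.Anderson hiding box mem_box card_box
open Pool.Agent.Loc Pool.Agent.Mob Pool.Agent.Helper54.Bal
  Pool.Agent.Helper96.EXP Pool.Agent.BED
open Pool.Agent.LE.MN

variable {d : ℕ}

theorem lap_ofReal (u : Site d → ℝ) (y : Site d) : lap (fun z => (u z : ℂ)) y = (nb u y : ℂ) := by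
  unfold lap nb
  push_cast
  rfl

/-- the truncated Green function -/
def tg (V : Site d → ℝ) (Λ : Finset (Site d)) (E : ℝ) (C' : Finset (Site d)) (x z : Site d) : ℝ :=
  if z ∈ C' then gr V Λ E x z else 0

/-- the weighted truncated Green function -/
def psr (V : Site d → ℝ) (Λ : Finset (Site d)) (E κ : ℝ) (b : Site d) (r₀ : ℕ)
    (C' : Finset (Site d)) (x z : Site d) : ℝ :=
  wt κ b r₀ z * tg V Λ E C' x z

/-- the error of the weight -/
def fr (V : Site d → ℝ) (Λ : Finset (Site d)) (E κ : ℝ) (b : Site d) (r₀ : ℕ)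
    (C' : Finset (Site d)) (x y : Site d) : ℝ :=
  -nb (fun z => (wt κ b r₀ y / wt κ b r₀ z - 1) * psr V Λ E κ b r₀ C' x z) y

/-- the error of the truncation -/
def er (V : Site d → ℝ) (Λ : Finset (Site d)) (E κ : ℝ) (b : Site d) (r₀ : ℕ)
    (C' : Finset (Site d)) (x y : Site d) : ℝ :=
  wt κ b r₀ y * (nb (tg V Λ E C' x) y + (V y - E) * tg V Λ E C' x y) + if y = x then 1 else 0

variable {V : Site d → ℝ} {Λ : Finset (Site d)} {E κ : ℝ} {b : Site d} {r₀ m : ℕ}
  {C C' : Finset (Site d)}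

theorem real_eq (x y : Site d) :
    nb (psr V Λ E κ b r₀ C' x) y + V y * psr V Λ E κ b r₀ C' x y - E * psr V Λ E κ b r₀ C' x y =
      fr V Λ E κ b r₀ C' x y + er V Λ E κ b r₀ C' x y - if y = x then 1 else 0 := by
  unfold fr er
  have h1 : nb (fun z => (wt κ b r₀ y / wt κ b r₀ z - 1) * psr V Λ E κ b r₀ C' x z) y =
      wt κ b r₀ y * nb (tg V Λ E C' x) y - nb (psr V Λ E κ b r₀ C' x) y := by
    unfold nb
    rw [Finset.mul_sum, ← Finset.sum_sub_distrib]
    refine Finset.sum_congr rfl fun i _ => ?_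
    have h2 : ∀ z : Site d, (wt κ b r₀ y / wt κ b r₀ z - 1) * psr V Λ E κ b r₀ C' x z =
        wt κ b r₀ y * tg V Λ E C' x z - psr V Λ E κ b r₀ C' x z := by
      intro z
      have h3 := (wt_pos κ b r₀ z).ne'
      unfold psr
      field_simp
    simp only [h2]
    ring
  rw [h1]
  unfold psr
  ring

theorem lin_fr (v : C → ℂ) (y : Site d) :
    lin C (fun x y => (fr V Λ E κ b r₀ C' x y : ℂ)) v y =
      -lap (fun z => ((wt κ b r₀ y / wt κ b r₀ z - 1 : ℝ) : ℂ) *
        lin C (fun x y => (psr V Λ E κ b r₀ C' x y : ℂ)) v z) y := by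
  have h1 : ∀ x : Site d, ((fr V Λ E κ b r₀ C' x y : ℝ) : ℂ) =
      -lap (fun z => ((wt κ b r₀ y / wt κ b r₀ z - 1 : ℝ) : ℂ) *
        (psr V Λ E κ b r₀ C' x z : ℂ)) y := by
    intro x
    unfold fr
    rw [Complex.ofReal_neg, ← lap_ofReal]
    congr 1
    unfold lap
    push_cast
    rfl
  unfold lin
  simp only [h1]
  unfold lap
  simp only [mul_neg, Finset.mul_sum, Finset.sum_neg_distrib]
  congr 1
  rw [Finset.sum_comm]
  refine Finset.sum_congr rfl fun i _ => ?_
  rw [← Finset.sum_add_distrib]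
  refine Finset.sum_congr rfl fun x _ => ?_
  ring

theorem fr_norm (hκ : 0 ≤ κ) (hκ1 : κ ≤ 1) (B : Finset (Site d)) (v : C → ℂ) :
    ∑ y ∈ B, ‖lin C (fun x y => (fr V Λ E κ b r₀ C' x y : ℂ)) v y‖ ^ 2 ≤
      (4 * d * κ) ^ 2 *
        ∑ y ∈ C', ‖lin C (fun x y => (psr V Λ E κ b r₀ C' x y : ℂ)) v y‖ ^ 2 := by
  have h1 : ∀ y ∈ B, ‖lin C (fun x y => (fr V Λ E κ b r₀ C' x y : ℂ)) v y‖ ^ 2 =
      ‖lap (fun z => ((wt κ b r₀ y / wt κ b r₀ z - 1 : ℝ) : ℂ) *
        lin C (fun x y => (psr V Λ E κ b r₀ C' x y : ℂ)) v z) y‖ ^ 2 := by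
    intro y _
    rw [lin_fr, norm_neg]
  rw [Finset.sum_congr rfl h1]
  refine lap_norm_sq_le hκ B _ ?_ (fun y z => ((wt κ b r₀ y / wt κ b r₀ z - 1 : ℝ) : ℂ)) ?_
  · intro y hy
    unfold lin
    refine Finset.sum_eq_zero fun x _ => ?_
    simp only [psr, tg, if_neg hy, mul_zero, Complex.ofReal_zero]
  · intro y i
    constructor
    · rw [Complex.norm_real, Real.norm_eq_abs]
      exact wt_ratio hκ hκ1 (sd_add_single_le y i)
    · rw [Complex.norm_real, Real.norm_eq_abs]
      exact wt_ratio hκ hκ1 (sd_sub_single_le y i)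

theorem sd_step (b y : Site d) (i : Fin d) :
    sd b (y + Pi.single i 1) ≤ sd b y + 1 ∧ sd b (y - Pi.single i 1) ≤ sd b y + 1 ∧
      sd b y ≤ sd b (y + Pi.single i 1) + 1 ∧ sd b y ≤ sd b (y - Pi.single i 1) + 1 := by
  have h1 := sd_add_single_le y i
  have h2 := sd_sub_single_le y i
  have a1 := sd_triangle b y (y + Pi.single i 1)
  have a2 := sd_triangle b y (y - Pi.single i 1)
  have a3 := sd_triangle b (y + Pi.single i 1) y
  have a4 := sd_triangle b (y - Pi.single i 1) y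
  rw [sd_comm (y + Pi.single i 1) y] at a3
  rw [sd_comm (y - Pi.single i 1) y] at a4
  refine ⟨?_, ?_, ?_, ?_⟩ <;> omega

theorem tg_out {r : ℕ} (hC' : C' ⊆ box b r) {x y : Site d} (hy : r < sd b y) :
    tg V Λ E C' x y = 0 := by
  unfold tg
  rw [if_neg]
  intro h
  have := hC' h
  rw [mem_box] at this
  omega

theorem psr_out {r : ℕ} (hC' : C' ⊆ box b r) {x y : Site d} (hy : r < sd b y) :
    psr V Λ E κ b r₀ C' x y = 0 := by
  unfold psr
  rw [tg_out hC' hy, mul_zero]

theorem nb_zero {u : Site d → ℝ} {y : Site d}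
    (h : ∀ i, u (y + Pi.single i 1) = 0 ∧ u (y - Pi.single i 1) = 0) : nb u y = 0 := by
  unfold nb
  refine Finset.sum_eq_zero fun i _ => ?_
  rw [(h i).1, (h i).2, add_zero]

theorem fr_out {r : ℕ} (hC' : C' ⊆ box b r) {x y : Site d} (hy : r + 1 < sd b y) :
    fr V Λ E κ b r₀ C' x y = 0 := by
  unfold fr
  rw [nb_zero, neg_zero]
  intro i
  have h := sd_step b y i
  rw [psr_out hC' (by omega), psr_out hC' (by omega), mul_zero, mul_zero]
  exact ⟨rfl, rfl⟩

theorem er_out {r : ℕ} (hC' : C' ⊆ box b r) {x y : Site d} (hx : sd b x ≤ r)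
    (hy : r + 1 < sd b y) : er V Λ E κ b r₀ C' x y = 0 := by
  unfold er
  rw [nb_zero, tg_out hC' (by omega), if_neg]
  · ring
  · rintro rfl
    omega
  · intro i
    have h := sd_step b y i
    rw [tg_out hC' (by omega), tg_out hC' (by omega)]
    exact ⟨rfl, rfl⟩

theorem VE_le {v E : ℝ} (hv : |v| ≤ 1) (hE : |E| ≤ 2 * d) : |v - E| ≤ 2 * d + 1 := by
  have h1 := abs_sub v E
  linarith

/-- the error of the truncation is small -/
theorem er_le {s a : ℝ} (hκ : 0 ≤ κ) (hdet : (RM V Λ E).det ≠ 0)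
    (hΛ : box b (r₀ + m + 1) ⊆ Λ) (hC : C ⊆ box b r₀) (hm : 1 ≤ m)
    (hC' : C' = clu V Λ E s C (box b (r₀ + m)))
    (hV : ∀ x ∈ box b (r₀ + m + 1), |V x| ≤ 1) (hE : |E| ≤ 2 * d)
    (hG : ∀ x ∈ box b (r₀ + m), ∀ y ∈ box b (r₀ + m), |gr V Λ E x y| ≤ Real.exp a)
    {x y : Site d} (hx : x ∈ C) (hy : y ∈ box b (r₀ + m + 1)) :
    |er V Λ E κ b r₀ C' x y| ≤ (4 * d + 1) * (Real.exp (-s) + Real.exp (a - κ * m)) := by
  have hC'b : C' ⊆ box b (r₀ + m) := by
    intro z hz
    rw [hC', mem_clu] at hz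
    rcases hz with h | h
    · exact box_mono b (Nat.le_add_right _ _) (hC h)
    · exact h.1
  have hxb : sd b x ≤ r₀ := mem_box.1 (hC hx)
  have hxb' : x ∈ box b (r₀ + m) := box_mono b (Nat.le_add_right _ _) (hC hx)
  have hyV := hV y hy
  have hd : (0 : ℝ) ≤ d := Nat.cast_nonneg d
  rcases Nat.lt_or_ge (sd b y) (r₀ + m) with h | h
  · -- inside
    have hout : ∀ z : Site d, sd b z ≤ r₀ + m →
        |gr V Λ E x z - tg V Λ E C' x z| ≤ Real.exp (-s) := by
      intro z hz
      unfold tg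
      split_ifs with h1
      · rw [sub_self, abs_zero]
        exact (Real.exp_pos _).le
      · rw [sub_zero]
        by_contra hcon
        rw [not_le] at hcon
        apply h1
        rw [hC', mem_clu]
        exact Or.inr ⟨mem_box.2 hz, x, hx, hcon.le⟩
    have hgr := green_gen hdet (hΛ (box_mono b (Nat.le_succ _) hxb')) (hΛ hy)
    have h2 : nb (tg V Λ E C' x) y = nb (gr V Λ E x) y -
        nb (fun z => gr V Λ E x z - tg V Λ E C' x z) y := by
      unfold nb
      rw [← Finset.sum_sub_distrib]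
      refine Finset.sum_congr rfl fun i _ => ?_
      ring
    have h3 : er V Λ E κ b r₀ C' x y = -(wt κ b r₀ y *
        (nb (fun z => gr V Λ E x z - tg V Λ E C' x z) y +
          (V y - E) * (gr V Λ E x y - tg V Λ E C' x y))) := by
      unfold er
      rw [h2]
      have h4 : wt κ b r₀ y * (if y = x then (1 : ℝ) else 0) = if y = x then 1 else 0 := by
        split_ifs with h5
        · rw [h5, wt_eq_one hxb, mul_one]
        · rw [mul_zero]
      have h5 : nb (gr V Λ E x) y = -(if y = x then 1 else 0) - (V y - E) * gr V Λ E x y := by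
        linarith
      rw [h5]
      linear_combination -h4
    rw [h3, abs_neg, abs_mul, abs_of_pos (wt_pos _ _ _ _)]
    have h6 : |nb (fun z => gr V Λ E x z - tg V Λ E C' x z) y| ≤ 2 * d * Real.exp (-s) := by
      refine nb_abs_le fun i => ?_
      have h7 := sd_step b y i
      exact ⟨hout _ (by omega), hout _ (by omega)⟩
    have h8 : |(V y - E) * (gr V Λ E x y - tg V Λ E C' x y)| ≤ (2 * d + 1) * Real.exp (-s) := by
      rw [abs_mul]
      exact mul_le_mul (VE_le hyV hE) (hout y (by omega)) (abs_nonneg _) (by positivity)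
    have h9 : |nb (fun z => gr V Λ E x z - tg V Λ E C' x z) y +
        (V y - E) * (gr V Λ E x y - tg V Λ E C' x y)| ≤ (4 * d + 1) * Real.exp (-s) := by
      refine le_trans (abs_add_le _ _) ?_
      linarith
    have h10 : 0 ≤ (4 * d + 1) * Real.exp (a - κ * m) := by positivity
    calc wt κ b r₀ y * |nb (fun z => gr V Λ E x z - tg V Λ E C' x z) y +
          (V y - E) * (gr V Λ E x y - tg V Λ E C' x y)| ≤ 1 * ((4 * d + 1) * Real.exp (-s)) :=
          mul_le_mul (wt_le_one hκ _ _ _) h9 (abs_nonneg _) zero_le_one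
      _ ≤ (4 * d + 1) * (Real.exp (-s) + Real.exp (a - κ * m)) := by linarith
  · -- near the boundary
    have htg : ∀ z : Site d, |tg V Λ E C' x z| ≤ Real.exp a := by
      intro z
      unfold tg
      split_ifs with h1
      · exact hG x hxb' z (hC'b h1)
      · rw [abs_zero]
        exact (Real.exp_pos _).le
    have hyx : y ≠ x := by
      rintro rfl
      omega
    unfold er
    rw [if_neg hyx, add_zero, abs_mul, abs_of_pos (wt_pos _ _ _ _)]
    have h6 : |nb (tg V Λ E C' x) y| ≤ 2 * d * Real.exp a :=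
      nb_abs_le fun i => ⟨htg _, htg _⟩
    have h8 : |(V y - E) * tg V Λ E C' x y| ≤ (2 * d + 1) * Real.exp a := by
      rw [abs_mul]
      exact mul_le_mul (VE_le hyV hE) (htg y) (abs_nonneg _) (by positivity)
    have h9 : |nb (tg V Λ E C' x) y + (V y - E) * tg V Λ E C' x y| ≤
        (4 * d + 1) * Real.exp a := by
      refine le_trans (abs_add_le _ _) ?_
      linarith
    have h10 : 0 ≤ (4 * d + 1) * Real.exp (-s) := by positivity
    have h11 : Real.exp (-(κ * m)) * Real.exp a = Real.exp (a - κ * m) := by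
      rw [← Real.exp_add]
      congr 1
      ring
    calc wt κ b r₀ y * |nb (tg V Λ E C' x) y + (V y - E) * tg V Λ E C' x y| ≤
          Real.exp (-(κ * m)) * ((4 * d + 1) * Real.exp a) :=
          mul_le_mul (wt_le hκ h) h9 (abs_nonneg _) (Real.exp_pos _).le
      _ = (4 * d + 1) * Real.exp (a - κ * m) := by rw [← h11]; ring
      _ ≤ (4 * d + 1) * (Real.exp (-s) + Real.exp (a - κ * m)) := by linarith

/-- the form bound on a subset -/
theorem KF_mono {B₁ B₂ : Finset (Site d)} {D : Site d → ℝ} {η τ : ℝ} (h : B₁ ⊆ B₂)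
    (hK : KF B₂ D E η τ) : KF B₁ D E η τ := by
  intro w hw
  have h1 : ∀ (u : Site d → ℂ), (∀ y, y ∉ B₁ → u y = 0) → ∀ θ, hatS B₂ u θ = hatS B₁ u θ := by
    intro u hu θ
    unfold hatS
    symm
    refine Finset.sum_subset h fun y _ hy => ?_
    rw [hu y hy, zero_mul]
  have h2 := hK w fun y hy => hw y fun hy' => hy (h hy')
  simp only [h1 w hw, h1 (fun y => (D y : ℂ) * w y) (fun y hy => by rw [hw y hy, mul_zero])] at h2
  exact h2

theorem sys_of {s a η ε τ : ℝ} (hκ : 0 ≤ κ) (hκ1 : κ ≤ 1) (hdet : (RM V Λ E).det ≠ 0)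
    (hΛ : box b (r₀ + m + 1) ⊆ Λ) (hC : C ⊆ box b r₀) (hm : 1 ≤ m)
    (hC' : C' = clu V Λ E s C (box b (r₀ + m)))
    (hV : ∀ x ∈ box b (r₀ + m + 1), |V x| ≤ 1) (hE : |E| ≤ 2 * d)
    (hG : ∀ x ∈ box b (r₀ + m), ∀ y ∈ box b (r₀ + m), |gr V Λ E x y| ≤ Real.exp a)
    (hε : (2 * ((r₀ + m + 1 : ℕ) : ℝ) + 1) ^ d *
      ((4 * d + 1) * (Real.exp (-s) + Real.exp (a - κ * m))) ^ 2 ≤ ε)
    (hKF : KF (box b (r₀ + m)) V E η τ) :
    Sys C C' (box b (r₀ + m + 1)) V (fun x y => (psr V Λ E κ b r₀ C' x y : ℂ))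
      (fun x y => (fr V Λ E κ b r₀ C' x y : ℂ)) (fun x y => (er V Λ E κ b r₀ C' x y : ℂ))
      E η (4 * d * κ) ε τ := by
  have hC'b : C' ⊆ box b (r₀ + m) := by
    intro z hz
    rw [hC', mem_clu] at hz
    rcases hz with h | h
    · exact box_mono b (Nat.le_add_right _ _) (hC h)
    · exact h.1
  refine ⟨?_, ?_, ?_, ?_, ?_, ?_, ?_, ?_, ?_⟩
  · intro z hz
    rw [hC', mem_clu]
    exact Or.inl hz
  · exact fun z hz => box_mono b (Nat.le_succ _) (hC'b hz)
  · intro y hy i
    have h1 := mem_box.1 (hC'b hy)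
    have h2 := sd_step b y i
    exact ⟨mem_box.2 (by omega), mem_box.2 (by omega)⟩
  · intro x _ y hy
    simp only [psr, tg, if_neg hy, mul_zero, Complex.ofReal_zero]
  · intro x _ y
    have h1 := congrArg (fun t : ℝ => (t : ℂ)) (real_eq (V := V) (Λ := Λ) (E := E) (κ := κ)
      (b := b) (r₀ := r₀) (C' := C') x y)
    have h3 : (if y = x then (1 : ℂ) else 0) = ((if y = x then (1 : ℝ) else 0 : ℝ) : ℂ) := by
      split_ifs <;> simp
    simp only [Complex.ofReal_add, Complex.ofReal_mul, Complex.ofReal_sub] at h1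
    rw [lap_ofReal, h3]
    exact h1
  · intro x hx y hy
    have h1 : r₀ + m + 1 < sd b y := by
      rw [mem_box] at hy
      omega
    have h2 : sd b x ≤ r₀ + m := by
      have := mem_box.1 (hC hx)
      omega
    simp only [fr_out hC'b h1, er_out hC'b h2 h1, Complex.ofReal_zero, and_self]
  · intro v
    exact fr_norm hκ hκ1 _ v
  · intro x hx
    have h1 : ∀ y ∈ box b (r₀ + m + 1), ‖((er V Λ E κ b r₀ C' x y : ℝ) : ℂ)‖ ^ 2 ≤
        ((4 * d + 1) * (Real.exp (-s) + Real.exp (a - κ * m))) ^ 2 := by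
      intro y hy
      rw [Complex.norm_real, Real.norm_eq_abs]
      exact pow_le_pow_left₀ (abs_nonneg _)
        (er_le hκ hdet hΛ hC hm hC' hV hE hG hx hy) 2
    refine le_trans (Finset.sum_le_card_nsmul _ _ _ h1) ?_
    rw [nsmul_eq_mul, card_box]
    push_cast
    push_cast at hε
    exact hε
  · exact KF_mono hC'b hKF

end Pool.Agent.LE.CL.H48
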